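import Pool.Agent.Helper40.AC.Stmts

/-!
# Tensor products of ranges of idempotent matrices (packet P11 of helper40)
-/

set_option autoImplicit false

open scoped TensorProduct Matrix Kronecker

namespace Pool.Agent.Helper69.AC

open Pool.Agent.Helper40.AC

theorem rr_id {B M : Type} [CommRing B] [AddCommGroup M] [Module B M] (E : M →ₗ[B] M)
    (hE : E ∘ₗ E = E) : E.rangeRestrict ∘ₗ (LinearMap.range E).subtype = LinearMap.id := by
  apply LinearMap.ext
  rintro ⟨x, y, rfl⟩
  apply Subtype.ext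
  show E (E y) = E y
  exact LinearMap.congr_fun hE y

theorem range_equiv {B X Y : Type} [CommRing B] [AddCommMonoid X] [Module B X] [AddCommMonoid Y]
    [Module B Y] (i : X →ₗ[B] Y) (r : Y →ₗ[B] X) (G : Y →ₗ[B] Y) (h1 : r ∘ₗ i = LinearMap.id)
    (h2 : i ∘ₗ r = G) : Nonempty (X ≃ₗ[B] LinearMap.range G) := by
  have hinj : Function.Injective i := by
    intro x y hxy
    have hx := LinearMap.congr_fun h1 x
    have hy := LinearMap.congr_fun h1 y
    simp only [LinearMap.comp_apply, LinearMap.id_apply] at hx hy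
    rw [← hx, ← hy, hxy]
  have hsurj : Function.Surjective r := by
    intro x
    exact ⟨i x, LinearMap.congr_fun h1 x⟩
  have hrange : LinearMap.range i = LinearMap.range G := by
    rw [← h2, LinearMap.range_comp_of_range_eq_top i (LinearMap.range_eq_top.2 hsurj)]
  exact ⟨(LinearEquiv.ofInjective i hinj).trans (LinearEquiv.ofEq _ _ hrange)⟩

theorem tens_ok : S_TENS := by
  intro B _ m n _ _ _ _ e f he hf
  set E : (m → B) →ₗ[B] (m → B) := Matrix.toLin' e with hE
  set F : (n → B) →ₗ[B] (n → B) := Matrix.toLin' f with hF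
  have hEE : E ∘ₗ E = E := by
    rw [hE, ← Matrix.toLin'_mul, he]
  have hFF : F ∘ₗ F = F := by
    rw [hF, ← Matrix.toLin'_mul, hf]
  set Θ : ((m → B) ⊗[B] (n → B)) ≃ₗ[B] (m × n → B) :=
    ((Pi.basisFun B m).tensorProduct (Pi.basisFun B n)).equivFun with hΘ
  have hkey : Θ.toLinearMap ∘ₗ TensorProduct.map E F = Matrix.toLin' (e ⊗ₖ f) ∘ₗ Θ.toLinearMap := by
    have h1 := Matrix.toLin_kronecker (Pi.basisFun B m) (Pi.basisFun B n) (Pi.basisFun B m)
      (Pi.basisFun B n) e f
    rw [Matrix.toLin_eq_toLin', Matrix.toLin_eq_toLin'] at h1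
    rw [← hE, ← hF] at h1
    rw [← h1]
    apply LinearMap.ext
    intro x
    simp only [LinearMap.comp_apply, LinearEquiv.coe_coe, hΘ]
    set b := (Pi.basisFun B m).tensorProduct (Pi.basisFun B n) with hb
    have h2 := LinearMap.toMatrix_mulVec_repr b b (Matrix.toLin b b (e ⊗ₖ f)) x
    rw [LinearMap.toMatrix_toLin] at h2
    rw [Matrix.toLin'_apply]
    exact h2.symm
  have hi := range_equiv (Θ.toLinearMap ∘ₗ TensorProduct.map (LinearMap.range E).subtype
    (LinearMap.range F).subtype) ((TensorProduct.map E.rangeRestrict F.rangeRestrict) ∘ₗ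
      Θ.symm.toLinearMap) (Matrix.toLin' (e ⊗ₖ f)) ?_ ?_
  · exact hi
  · rw [LinearMap.comp_assoc, ← LinearMap.comp_assoc _ Θ.toLinearMap]
    have h0 : Θ.symm.toLinearMap ∘ₗ Θ.toLinearMap = LinearMap.id := by
      ext x
      simp
    rw [h0, LinearMap.id_comp, ← TensorProduct.map_comp, rr_id E hEE, rr_id F hFF,
      TensorProduct.map_id]
  · rw [LinearMap.comp_assoc, ← LinearMap.comp_assoc _ (TensorProduct.map E.rangeRestrict
      F.rangeRestrict), ← TensorProduct.map_comp]
    have e1 : (LinearMap.range E).subtype ∘ₗ E.rangeRestrict = E := rfl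
    have e2 : (LinearMap.range F).subtype ∘ₗ F.rangeRestrict = F := rfl
    rw [e1, e2, ← LinearMap.comp_assoc, hkey, LinearMap.comp_assoc]
    have h0 : Θ.toLinearMap ∘ₗ Θ.symm.toLinearMap = LinearMap.id := by
      ext x
      simp
    rw [h0, LinearMap.comp_id]

end Pool.Agent.Helper69.AC
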